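import Pool.Agent.Helper27.AB.PH3.Goals

/-! Packet DTP of module PH3 of PROJECT AB (MP_1ef41b_an, for helper27): `∂_t Φ` is of class `PB`. -/

set_option autoImplicit false

open MeasureTheory Set Filter Topology
open scoped ContDiff

noncomputable section

namespace Pool.Agent.Helper3.AB

open Pool.Agent.Helper24.AB Pool.Agent.Helper15.AB Pool.Agent.Helper27.AB

theorem strip_open (a : ℝ) : IsOpen (strip a) :=
  isOpen_lt (continuous_abs.comp Complex.continuous_re) continuous_const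

/-- the formula for `∂_t Φ` -/
theorem dT_Phi (a A : ℝ) (s : ℝ → ℝ) (p : ℂ → ℝ) (hs : IsProfile a A s) (α α' l : ℝ) (z : ℂ)
    (hz : z ∈ strip a) (hp : DifferentiableAt ℝ (fun w => α * p w) z)
    (hu : DifferentiableAt ℝ (fun w : ℂ => uf α w.im) z)
    (hF : DifferentiableAt ℝ (Ff a A s α α' l) z) (hF0 : 0 < Ff a A s α α' l z)
    (hL : ContDiffOn ℝ ∞ Lam (Ioi 0)) :
    dT (Phi a A s p α α' l) z = (dT (fun w => α * p w) z +
      (-A) * dT (fun w : ℂ => uf α w.im) z) +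
      (-(1 / 2)) * (deriv Lam (Ff a A s α α' l z) * dT (Ff a A s α α' l) z) := by
  have hz' : |z.re| < a := hz
  have hre : z.re ∈ Ioo (-a) a := by rw [abs_lt] at hz'; exact hz'
  have hsd : DifferentiableAt ℝ s z.re :=
    (hs.smooth.differentiableOn (by simp) z.re hre).differentiableAt (Ioo_mem_nhds hre.1 hre.2)
  have hspos := hs.pos z.re hre
  have hepos : 0 < a ^ 2 - z.re ^ 2 := by
    have := sq_lt_sq' hre.1 hre.2
    linarith
  have hg3 : DifferentiableAt ℝ (fun x => Real.log (s x)) z.re := hsd.log hspos.ne'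
  have hg4 : DifferentiableAt ℝ (fun x => Real.log (a ^ 2 - x ^ 2)) z.re :=
    DifferentiableAt.log (by fun_prop) hepos.ne'
  have hcm : ∀ g : ℝ → ℝ, DifferentiableAt ℝ g z.re →
      HasFDerivAt (fun w : ℂ => g w.re) (deriv g z.re • Complex.reCLM) z := fun g hg =>
    hg.hasDerivAt.comp_hasFDerivAt z Complex.reCLM.hasFDerivAt
  have h3 := hcm _ hg3
  have h4 := hcm _ hg4
  have hLd : DifferentiableAt ℝ Lam (Ff a A s α α' l z) :=
    (hL.differentiableOn (by simp) _ hF0).differentiableAt (Ioi_mem_nhds hF0)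
  have h5 : HasFDerivAt (fun w => Lam (Ff a A s α α' l w))
      (deriv Lam (Ff a A s α α' l z) • fderiv ℝ (Ff a A s α α' l) z) z :=
    hLd.hasDerivAt.comp_hasFDerivAt z hF.hasFDerivAt
  have h := hp.hasFDerivAt.add (((((hu.hasFDerivAt.const_mul A).neg.sub (h3.mul_const (1 / 2))).sub
    (h4.mul_const (1 / 2))).sub (h5.mul_const (1 / 2))).sub_const
      (Real.log (4 * Real.sqrt 5 * Real.pi * A ^ 2) / 2))
  have h' := HasFDerivAt.congr_of_eventuallyEq (f₁ := Phi a A s p α α' l) h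
    (Eventually.of_forall fun w => by
      simp only [Phi, Phi0, Lam, Pi.add_apply, Pi.sub_apply, Pi.neg_apply]
      ring)
  rw [dT, h'.fderiv]
  simp only [add_apply, sub_apply,
    neg_apply, smul_apply, Complex.reCLM_apply,
    Complex.I_re, smul_eq_mul, dT]
  ring

theorem dtp (hA : S_POLA) (hB : S_POLB) (hP : S_POLP) (hF : S_POLF) (hL : S_POLL)
    (hT : S_TEX) (hLam : S_LAM) : S_DTP := by
  intro a A δ₀ ρ₀ s p B hs hpot m
  obtain ⟨hadd, -, hsm, hmul, hder, -, hcongr⟩ := hA a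
  have ha := hs.a_pos
  have h1 := (hder m _ (hP a δ₀ ρ₀ p B ha hpot (m + 1))).2.2
  have h1s := (hP a δ₀ ρ₀ p B ha hpot 0).smooth
  have h2 := (hder m _ (hB a ha (m + 1)).2.1).2.2
  have h2s := (hB a ha 0).2.1.smooth
  have h3 := (hder m _ (hF a A s hs (m + 1))).2.2
  have h3s := (hF a A s hs 0).smooth
  have h4 := hL a A s hs m 1 le_rfl
  have h5 := hadd m _ _ (hadd m _ _ h1 (hsm m _ (-A) h2)) (hsm m _ (-(1 / 2)) (hmul m _ _ h4 h3))
  refine hcongr m _ _ (fun q z hz => ?_) h5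
  have hn : strip a ∈ 𝓝 z := (strip_open a).mem_nhds hz
  have hd : ∀ f : ℂ → ℝ, ContDiffOn ℝ ∞ f (strip a) → DifferentiableAt ℝ f z := fun f hf =>
    (hf.differentiableOn (by simp) z hz).differentiableAt hn
  rw [dT_Phi a A s p hs q.1.1 q.1.2.1 q.1.2.2 z hz (hd _ (h1s q)) (hd _ (h2s q)) (hd _ (h3s q))
    (hT a A s hs _ _ _ (Or.inl q.2) z hz).1 hLam.1, iteratedDeriv_one]

end Pool.Agent.Helper3.AB
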